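import Pool.Agent.MQG.StmtsB
import Pool.Agent.Helper59_MMU.GNS

set_option autoImplicit false

/-!
# MQG, row EPS: the counit exists and is a state
-/

namespace Pool.Agent.MQG.H82

open scoped InnerProductSpace InnerProduct Topology
open Complex Filter

theorem adapted_one {ι : Type} (W : Op (ι × ι)) : Adapted W (1 : Op (Unit × ι)) where
  unit := one_mem _
  eq := by rw [l12_one, l13_one, one_mul, one_mul, mul_one]

theorem sl_one {ι κ : Type} (u y : L2 ι) (z : L2 κ) :
    sl (1 : Op (κ × ι)) u y z = ⟪u, y⟫_ℂ • z := by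
  refine ext_inner_left ℂ fun x => ?_
  rw [inner_sl, one_apply_eq_self, inner_tn, inner_smul_right, mul_comm]

theorem eps : EpsStmt := by
  intro ι _ W κ WW hU
  obtain ⟨π, hπ⟩ := hU.lift Unit 1 (adapted_one W)
  let δ : L2 Unit := lp.single 2 () (1 : ℂ)
  have hδ : ‖δ‖ = 1 := by
    simp [δ, lp.norm_single]
  let e : Du WW := LinearMap.mkContinuous
    { toFun := fun a => ⟪δ, π a δ⟫_ℂ
      map_add' := fun a b => by simp
      map_smul' := fun r a => by simp } 1 (fun a => by
      calc ‖⟪δ, π a δ⟫_ℂ‖ ≤ ‖δ‖ * ‖π a δ‖ := norm_inner_le_norm _ _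
        _ ≤ ‖δ‖ * (‖π a‖ * ‖δ‖) := by
          gcongr
          exact ContinuousLinearMap.le_opNorm _ _
        _ ≤ ‖δ‖ * (‖a‖ * ‖δ‖) := by
          gcongr
          exact NonUnitalStarAlgHom.norm_apply_le _ _
        _ = 1 * ‖a‖ := by rw [hδ]; ring)
  have he : ∀ a, e a = ⟪δ, π a δ⟫_ℂ := fun a => rfl
  have hd : Dense (Submodule.span ℂ {y : L2 Unit | ∃ a x, π a x = y} : Set (L2 Unit)) := by
    have htop : Submodule.span ℂ {y : L2 Unit | ∃ a x, π a x = y} = ⊤ := by
      rw [eq_top_iff]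
      rintro y -
      obtain ⟨i⟩ := (inferInstance : Nonempty ι)
      classical
      let u : L2 ι := lp.single 2 i (1 : ℂ)
      have hu : ‖u‖ = 1 := by
        simp [u, lp.norm_single]
      have h1 : π (asl WW u u) y = y := by
        rw [hπ, sl_one, inner_self_eq_norm_sq_to_K, hu]
        simp
      exact Submodule.subset_span ⟨_, _, h1⟩
    rw [htop]
    exact dense_univ
  refine ⟨e, Pool.Agent.H59.GNS.vec_state π hd δ hδ e he, fun u y => ?_⟩
  rw [he, hπ, sl_one, inner_smul_right, inner_self_eq_norm_sq_to_K, hδ]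
  simp

end Pool.Agent.MQG.H82
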